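import Pool.Agent.L7h35.RQ5.Stm

set_option autoImplicit false

namespace Pool.Agent.L7h35.RQ5

/-- at most `2 ^ (m + d)` vectors in `ℕ^d` have sum at most `m` -/
lemma card_sum_le (d m : ℕ) (Z : Finset (Fin d → ℕ)) (hZ : ∀ z ∈ Z, ∑ t, z t ≤ m) :
    (Z.card : ℝ) ≤ 2 ^ (m + d) := by
  have hsub : Z ⊆ Fintype.piFinset (fun _ : Fin d => Finset.range (m + 1)) := by
    intro z hz
    rw [Fintype.mem_piFinset]
    intro t
    have h1 := hZ z hz
    have h2 : z t ≤ ∑ t, z t := Finset.single_le_sum (f := z) (fun _ _ => Nat.zero_le _) (Finset.mem_univ t)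
    exact Finset.mem_range.2 (by omega)
  have h1 : ∑ z ∈ Fintype.piFinset (fun _ : Fin d => Finset.range (m + 1)),
      ∏ t, ((1 : ℝ) / 2) ^ (z t) = ∏ _t : Fin d, ∑ j ∈ Finset.range (m + 1), ((1 : ℝ) / 2) ^ j :=
    (Finset.prod_univ_sum (fun _ : Fin d => Finset.range (m + 1))
      (fun _ j => ((1 : ℝ) / 2) ^ j)).symm
  have h2 : ∑ j ∈ Finset.range (m + 1), ((1 : ℝ) / 2) ^ j ≤ 2 := by
    rw [geom_sum_eq (by norm_num)]
    have : (0 : ℝ) < (1 / 2) ^ (m + 1) := by positivity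
    rw [div_le_iff_of_neg (by norm_num)]
    linarith
  have h3 : ∏ _t : Fin d, ∑ j ∈ Finset.range (m + 1), ((1 : ℝ) / 2) ^ j ≤ 2 ^ d := by
    rw [Finset.prod_const, Finset.card_univ, Fintype.card_fin]
    exact pow_le_pow_left₀ (Finset.sum_nonneg fun _ _ => by positivity) h2 d
  have h4 : (Z.card : ℝ) * (1 / 2) ^ m ≤ ∑ z ∈ Z, ∏ t, ((1 : ℝ) / 2) ^ (z t) := by
    rw [← nsmul_eq_mul]
    apply Finset.card_nsmul_le_sum
    intro z hz
    rw [Finset.prod_pow_eq_pow_sum]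
    exact pow_le_pow_of_le_one (by norm_num) (by norm_num) (hZ z hz)
  have h5 : ∑ z ∈ Z, ∏ t, ((1 : ℝ) / 2) ^ (z t) ≤
      ∑ z ∈ Fintype.piFinset (fun _ : Fin d => Finset.range (m + 1)), ∏ t, ((1 : ℝ) / 2) ^ (z t) :=
    Finset.sum_le_sum_of_subset_of_nonneg hsub (fun _ _ _ => Finset.prod_nonneg fun _ _ => by positivity)
  have h6 : (Z.card : ℝ) * (1 / 2) ^ m ≤ 2 ^ d := (h4.trans h5).trans (h1.le.trans h3)
  have h7 : (Z.card : ℝ) = (Z.card : ℝ) * (1 / 2) ^ m * 2 ^ m := by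
    rw [mul_assoc, ← mul_pow]
    norm_num
  rw [h7, pow_add, mul_comm ((2 : ℝ) ^ m)]
  exact mul_le_mul_of_nonneg_right h6 (by positivity)

lemma card_T_le (d i j : ℕ) (X : Finset (Fin d → ℤ))
    (hX : ∀ x ∈ X, ∑ t, (x t).toNat = i ∧ ∑ t, (-(x t)).toNat = j) :
    ((T X).card : ℝ) ≤ 2 ^ (i + j + d) := by
  apply card_sum_le
  intro z hz
  simp only [T, Finset.mem_image] at hz
  obtain ⟨⟨x, y⟩, hp, rfl⟩ := hz
  obtain ⟨hx, hy⟩ := Finset.mem_product.1 hp
  have h1 := (hX x hx).2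
  have h2 := (hX y hy).1
  calc ∑ t, (y t - x t).toNat ≤ ∑ t, ((y t).toNat + (-(x t)).toNat) :=
        Finset.sum_le_sum fun t _ => by omega
    _ = i + j := by rw [Finset.sum_add_distrib, h1, h2]

theorem s_GEN (hVN : S_VN) : S_GEN := by
  classical
  intro L hL hh ρ M hρ hq
  set c : ℝ := 2 ^ (1 / L) with hc
  have hc0 : 0 < c := Real.rpow_pos_of_pos (by norm_num) _
  refine ⟨((1 - ρ * c)⁻¹) ^ 2, fun d => ?_⟩
  -- bound of a class
  have hclass : ∀ (i j : ℕ) (X : Finset (Fin d → ℤ)),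
      (∀ x ∈ X, ∑ t, (x t).toNat = i ∧ ∑ t, (-(x t)).toNat = j) →
      (X.card : ℝ) ≤ c ^ (i + j + d) := by
    intro i j X hX
    rcases Nat.eq_zero_or_pos X.card with h0 | h0
    · rw [h0, Nat.cast_zero]
      positivity
    · have h1 : (X.card : ℝ) ^ L ≤ 2 ^ (i + j + d) := by
        refine (hh X.card (by omega)).trans ?_
        have h2 : (h X.card : ℝ) ≤ ((T X).card : ℝ) := by exact_mod_cast hVN (Fin d) inferInstance X
        exact h2.trans (card_T_le d i j X hX)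
      have h3 : ((X.card : ℝ) ^ L) ^ (1 / L) ≤ ((2 : ℝ) ^ (i + j + d)) ^ (1 / L) :=
        Real.rpow_le_rpow (by positivity) h1 (by positivity)
      rw [← Real.rpow_mul (by positivity), mul_one_div_cancel hL.ne', Real.rpow_one] at h3
      refine h3.trans (le_of_eq ?_)
      rw [hc, ← Real.rpow_natCast 2 (i + j + d), ← Real.rpow_mul (by norm_num),
        ← Real.rpow_natCast (2 ^ (1 / L)) (i + j + d), ← Real.rpow_mul (by norm_num), mul_comm]
  -- the generating function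
  set J : Finset ℤ := Finset.Icc (-(M : ℤ)) M with hJ
  have hsumJ : ∑ j ∈ J, ρ ^ j.natAbs = 1 + 2 * ∑ j ∈ Finset.range M, ρ ^ (j + 1) := by
    rw [hJ]
    induction M with
    | zero => simp
    | succ M ih =>
      have hset : Finset.Icc (-((M + 1 : ℕ) : ℤ)) ((M + 1 : ℕ) : ℤ) =
          insert (-((M : ℤ) + 1)) (insert ((M : ℤ) + 1) (Finset.Icc (-(M : ℤ)) M)) := by
        ext x
        simp only [Finset.mem_Icc, Finset.mem_insert]
        push_cast
        omega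
      rw [hset, Finset.sum_insert, Finset.sum_insert, ih, Finset.sum_range_succ]
      · have e1 : (-((M : ℤ) + 1)).natAbs = M + 1 := by omega
        have e2 : ((M : ℤ) + 1).natAbs = M + 1 := by omega
        rw [e1, e2]
        ring
      · rfl
      · simp only [Finset.mem_Icc]
        omega
      · simp only [Finset.mem_Icc, Finset.mem_insert]
        omega
  rw [← hsumJ]
  have hprod : (∑ j ∈ J, ρ ^ j.natAbs) ^ d =
      ∑ x ∈ Fintype.piFinset (fun _ : Fin d => J), ∏ t, ρ ^ (x t).natAbs := by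
    rw [← Finset.prod_univ_sum (fun _ : Fin d => J) (fun _ j => ρ ^ j.natAbs)]
    rw [Finset.prod_const, Finset.card_univ, Fintype.card_fin]
  rw [hprod]
  set B := Fintype.piFinset (fun _ : Fin d => J) with hB
  have hterm : ∀ x : Fin d → ℤ, ∏ t, ρ ^ (x t).natAbs =
      ρ ^ (∑ t, (x t).toNat) * ρ ^ (∑ t, (-(x t)).toNat) := by
    intro x
    rw [Finset.prod_pow_eq_pow_sum, ← pow_add, ← Finset.sum_add_distrib]
    congr 1
    exact Finset.sum_congr rfl fun t _ => by omega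
  have hbd : ∀ x ∈ B, ∑ t, (x t).toNat ≤ d * M ∧ ∑ t, (-(x t)).toNat ≤ d * M := by
    intro x hx
    have h1 : ∀ t, x t ∈ J := Fintype.mem_piFinset.1 hx
    constructor
    · calc ∑ t, (x t).toNat ≤ ∑ _t : Fin d, M := Finset.sum_le_sum fun t _ => by
            have := Finset.mem_Icc.1 (h1 t)
            omega
        _ = d * M := by simp
    · calc ∑ t, (-(x t)).toNat ≤ ∑ _t : Fin d, M := Finset.sum_le_sum fun t _ => by
            have := Finset.mem_Icc.1 (h1 t)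
            omega
        _ = d * M := by simp
  have hfib := Finset.sum_fiberwise_of_maps_to (s := B)
    (t := Finset.range (d * M + 1) ×ˢ Finset.range (d * M + 1))
    (g := fun x : Fin d → ℤ => (∑ t, (x t).toNat, ∑ t, (-(x t)).toNat))
    (f := fun x => ∏ t, ρ ^ (x t).natAbs)
    (fun x hx => Finset.mem_product.2 ⟨Finset.mem_range.2 (by have := (hbd x hx).1; simp only; omega),
      Finset.mem_range.2 (by have := (hbd x hx).2; simp only; omega)⟩)
  rw [← hfib]
  have hone : ∀ p ∈ Finset.range (d * M + 1) ×ˢ Finset.range (d * M + 1),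
      ∑ x ∈ B with (fun x : Fin d → ℤ => (∑ t, (x t).toNat, ∑ t, (-(x t)).toNat)) x = p,
        ∏ t, ρ ^ (x t).natAbs ≤ c ^ d * ((ρ * c) ^ p.1 * (ρ * c) ^ p.2) := by
    rintro ⟨i, j⟩ -
    set X := B.filter (fun x : Fin d → ℤ => (fun x : Fin d → ℤ =>
      (∑ t, (x t).toNat, ∑ t, (-(x t)).toNat)) x = (i, j)) with hXdef
    have hX : ∀ x ∈ X, ∑ t, (x t).toNat = i ∧ ∑ t, (-(x t)).toNat = j := by
      intro x hx
      have h1 := (Finset.mem_filter.1 hx).2
      exact ⟨congrArg Prod.fst h1, congrArg Prod.snd h1⟩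
    have h1 : ∑ x ∈ X, ∏ t, ρ ^ (x t).natAbs = (X.card : ℝ) * (ρ ^ i * ρ ^ j) := by
      rw [← nsmul_eq_mul, ← Finset.sum_const]
      refine Finset.sum_congr rfl fun x hx => ?_
      rw [hterm x, (hX x hx).1, (hX x hx).2]
    rw [h1]
    calc (X.card : ℝ) * (ρ ^ i * ρ ^ j) ≤ c ^ (i + j + d) * (ρ ^ i * ρ ^ j) :=
          mul_le_mul_of_nonneg_right (hclass i j X hX) (by positivity)
      _ = c ^ d * ((ρ * c) ^ i * (ρ * c) ^ j) := by
          rw [mul_pow, mul_pow, pow_add, pow_add]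
          ring
  refine (Finset.sum_le_sum hone).trans ?_
  rw [← Finset.mul_sum]
  have hsq : ∑ p ∈ Finset.range (d * M + 1) ×ˢ Finset.range (d * M + 1),
      (ρ * c) ^ p.1 * (ρ * c) ^ p.2 = (∑ i ∈ Finset.range (d * M + 1), (ρ * c) ^ i) ^ 2 := by
    rw [Finset.sum_product, sq, Finset.sum_mul_sum]
  rw [hsq, mul_comm]
  have hq0 : 0 < ρ * c := by positivity
  have hgeo : ∑ i ∈ Finset.range (d * M + 1), (ρ * c) ^ i ≤ (1 - ρ * c)⁻¹ := by
    rw [← tsum_geometric_of_lt_one hq0.le hq]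
    exact (summable_geometric_of_lt_one hq0.le hq).sum_le_tsum _ (fun _ _ => by positivity)
  exact mul_le_mul_of_nonneg_right
    (pow_le_pow_left₀ (Finset.sum_nonneg fun _ _ => by positivity) hgeo 2) (by positivity)

end Pool.Agent.L7h35.RQ5
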