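import Mathlib

/-!
# Project QR (MP_f9e5d9_nt): distinct quotients `a_j / (a_i, a_j)`, the limit exists

Theorem: `log h(n) / log n` converges to a limit `L` with `1/2 ≤ L ≤ log 2 / log (1 + √2) = 0.786...`.
Vectors: `T X` = positive parts of differences of the vectors in `X ⊆ ℤ^ι` (`ι` finite).
-/

set_option autoImplicit false

open Filter Topology

namespace Pool.Agent.L7h35.RQ5

/-- the set of the quotients `b / (a, b)`, `a, b ∈ A` -/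
def R (A : Finset ℕ) : Finset ℕ := (A ×ˢ A).image (fun p => p.2 / Nat.gcd p.1 p.2)

/-- `h n` = the least size of `R A` over all sets `A` of `n` positive integers -/
noncomputable def h (n : ℕ) : ℕ :=
  sInf {k | ∃ A : Finset ℕ, (∀ a ∈ A, 0 < a) ∧ A.card = n ∧ (R A).card = k}

open Classical in
/-- the positive parts of the differences `y - x`, `x, y ∈ X` -/
noncomputable def T {ι : Type} (X : Finset (ι → ℤ)) : Finset (ι → ℕ) :=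
  (X ×ˢ X).image (fun p => fun i => (p.2 i - p.1 i).toNat)

/-- VN (80 lines).  Vectors to integers: shift `X` into `ℕ^ι`, `a_x = ∏ i, P i ^ x i` with an
injection `P` of `ι` into the primes (e.g. `Nat.nth Nat.Prime` of `Fintype.equivFin ι i`).
`a_y / gcd(a_x, a_y) = ∏ P i ^ (y i - x i)⁺` (write `a_x = g a'`, `a_y = g b'` with
`g = ∏ P i ^ min`, `a'`, `b'` coprime), so `R A ⊆` image of `T X`; `x ↦ a_x` is injective. -/
def S_VN : Prop := ∀ (ι : Type) (_ : Fintype ι) (X : Finset (ι → ℤ)), h X.card ≤ (T X).card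

/-- NV (60 lines).  Integers to vectors: `ι = Fin N`, `N` larger than all `a ∈ A`,
`x_a i = a.factorization i`; `(x_b - x_a)⁺` is the factorization of `b / gcd(a, b)`
(`Nat.factorization_div`, `Nat.factorization_gcd`), so `T X` is the image of `R A`. `h` is attained
(`Nat.sInf_mem`). -/
def S_NV : Prop := ∀ n : ℕ, ∃ (ι : Type) (_ : Fintype ι) (X : Finset (ι → ℤ)),
  X.card = n ∧ (T X).card ≤ h n

/-- SUB (50 lines, hypotheses VN, NV).  `X × Y ⊆ ℤ^(ι ⊕ κ)` with `Sum.elim`. -/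
def S_SUB : Prop := ∀ m n : ℕ, h (m * n) ≤ h m * h n

/-- MON (25 lines).  A subset `B ⊆ A` has `R B ⊆ R A`. -/
def S_MON : Prop := ∀ m n : ℕ, m ≤ n → h m ≤ h n

/-- LOW (40 lines).  Fix `a₀ ∈ A`; `a ↦ (a / (a₀, a), a₀ / (a, a₀))` is injective into `R A × R A`. -/
def S_LOW : Prop := ∀ n : ℕ, n ≤ h n ^ 2

/-- FEK (80 lines).  Pure analysis (Fekete): `f` monotone, submultiplicative, `n ≤ f n ^ 2`.
`L` = infimum of `log f(n) / log n` over `n ≥ 2`; for fixed `m ≥ 2` and `m^k ≤ n < m^(k+1)`: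
`f n ≤ f (m^(k+1)) ≤ f m ^ (k+1)` and `log n ≥ k log m`. -/
def S_FEK : Prop := ∀ f : ℕ → ℕ, Monotone f → (∀ m n, f (m * n) ≤ f m * f n) →
  (∀ n, n ≤ f n ^ 2) →
  ∃ L : ℝ, Tendsto (fun n : ℕ => Real.log (f n) / Real.log n) atTop (𝓝 L) ∧ 1 / 2 ≤ L ∧
    ∀ n : ℕ, (n : ℝ) ^ L ≤ f n ∨ n = 0

/-- GEN (120 lines, hypothesis VN).  If `n^L ≤ h n` for all `n`, then for all `ρ` with
`0 < ρ < 2^(-1/L)`, all `M` there is a constant `K` with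
`(∑_{|j| ≤ M} ρ^|j|)^d ≤ K 2^(d/L)` for all `d`: sum `∏ ρ^|x i|` over `x ∈ {-M..M}^d`
(`Finset.prod_univ_sum`) and sort the `x` by `i = ∑ x⁺`, `j = ∑ x⁻`.  Such a class `X` has
`T X ⊆ {z : ∑ z ≤ i + j}`, `|T X| ≤ 2^(i+j) ∑_z 2^(-∑ z) ≤ 2^(i+j+d)`, so
`|X| ≤ 2^((i+j+d)/L)`; `K = ∑_m (m+1) (2^(1/L) ρ)^m`. -/
def S_GEN : Prop := ∀ L : ℝ, 0 < L → (∀ n : ℕ, n ≠ 0 → (n : ℝ) ^ L ≤ h n) →
  ∀ (ρ : ℝ) (M : ℕ), 0 < ρ → ρ * 2 ^ (1 / L) < 1 →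
  ∃ K : ℝ, ∀ d : ℕ, (1 + 2 * ∑ j ∈ Finset.range M, ρ ^ (j + 1)) ^ d ≤ K * (2 ^ (1 / L)) ^ d

/-- UPP (60 lines, hypothesis GEN).  Let `t = 2^(-1/L)`.  For `ρ < t`: `(G_M(ρ) t)^d ≤ K`, so
`G_M(ρ) ≤ 1/t`; `M → ∞`: `(1+ρ)/(1-ρ) ≤ 1/t`; `ρ → t`: `t² + 2t ≤ 1`, `t ≤ √2 - 1`, so
`L ≤ log 2 / log (1 + √2)`. -/
def S_UPP : Prop := ∀ L : ℝ, 0 < L → (∀ n : ℕ, n ≠ 0 → (n : ℝ) ^ L ≤ h n) →
  L ≤ Real.log 2 / Real.log (1 + Real.sqrt 2)

end Pool.Agent.L7h35.RQ5
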